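import Mathlib
import Pool.Agent.TH575.CW.Fin

set_option autoImplicit false

namespace Pool.Agent.Results.MP_0c9a68_nt.BadScalesUniform

open ArithmeticFunction Finset Pool.Agent.TH575.CW

/-- real multiplicative functions with values in `{-1, 0, 1}` which do not vanish at the primes
larger than `p0` -/
def RMul (p0 : ℕ) (g : ℕ → ℤ) : Prop :=
  (∀ n, g n = -1 ∨ g n = 0 ∨ g n = 1) ∧ g 1 = 1 ∧ (∀ m n : ℕ, m.Coprime n → g (m * n) = g m * g n) ∧
    ∀ p : ℕ, p.Prime → p0 < p → g p ≠ 0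

/-- the sum of `f(n) g(n+h)` over the `n ≤ y` with `n ≡ c (mod q)` -/
noncomputable def cor (f g : ℕ → ℤ) (h q c y : ℕ) : ℝ :=
  ∑ n ∈ (Icc 1 y).filter (fun n => n ≡ c [MOD q]), (f n : ℝ) * g (n + h)

/-- the dyadic scales `x / 2 ^ i`, `1 ≤ i ≤ J`, at which the correlation of `f` and `g` is not
at most `ε` in absolute value -/
noncomputable def bad (ε : ℝ) (f g : ℕ → ℤ) (h q c x J : ℕ) : Finset ℕ :=
  (Icc 1 J).filter (fun i => ε * ((x : ℝ) / 2 ^ i) < |cor f g h q c (x / 2 ^ i)|)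

lemma ok_of_rmul {p0 : ℕ} {g : ℕ → ℤ} (hg : RMul p0 g) : Ok p0 g := by
  obtain ⟨h1, _, h3, h4⟩ := hg
  refine ⟨fun n => ?_, fun p hp hp0 => ⟨?_, fun m hm => ?_⟩⟩
  · rcases h1 n with h | h | h <;> rw [h] <;> norm_num
  · have := h4 p hp hp0
    rcases h1 p with h | h | h
    · exact Or.inr h
    · exact absurd h this
    · exact Or.inl h
  · exact h3 p m ((Nat.Prime.coprime_iff_not_dvd hp).2 hm)

lemma cor_eq (f g : ℕ → ℤ) (h q c y : ℕ) : cor f g h q c y = TS f g h q c y := by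
  unfold cor TS tm
  rw [sum_filter]
  apply sum_congr rfl
  intro n _
  rfl

/-- For `f = λ` or `f = μ`, for every `h, q, ε` there is a constant `C` such that for every `J`,
for all large `x`, for all real multiplicative `g` which do not vanish at primes `> p0` and all
residue classes `c` modulo `q`, the bad dyadic scales `x / 2 ^ i`, `i ≤ J`, for the correlations
`f(n) g(n+h)` and `g(n) f(n+h)` satisfy `∑ 1/i ≤ C`. -/
theorem result (f : ℕ → ℤ) (hf : (∀ n, f n = (-1) ^ cardFactors n) ∨ (∀ n, f n = moebius n))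
    (p0 h q : ℕ) (hh : 1 ≤ h) (hq : 1 ≤ q) (ε : ℝ) (hε : 0 < ε) :
    ∃ C : ℝ, ∀ J : ℕ, ∃ x0 : ℕ, ∀ x : ℕ, x0 ≤ x → ∀ g : ℕ → ℤ, RMul p0 g → ∀ c : ℕ,
      ∑ i ∈ bad ε f g h q c x J, 1 / (i : ℝ) ≤ C ∧ ∑ i ∈ bad ε g f h q c x J, 1 / (i : ℝ) ≤ C := by
  have key : Ok p0 f ∧ Pool.Agent.TH823.MRS.ExpoSmall (fun n => ((f n : ℤ) : ℂ)) := by
    rcases hf with hf | hf
    · have h1 : f = Lm := by funext n; rw [hf n]; rfl
      rw [h1]
      exact ⟨⟨Lm_ok.1, fun p hp hp0 => Lm_ok.2 p hp (by omega)⟩, Lm_E⟩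
    · have h1 : f = fun n => moebius n := by funext n; rw [hf n]
      rw [h1]
      refine ⟨⟨fun n => ?_, fun p hp hp0 => ⟨Or.inr ?_, fun m hm => ?_⟩⟩, ?_⟩
      · exact abs_moebius_le_one
      · exact moebius_apply_prime hp
      · exact isMultiplicative_moebius.map_mul_of_coprime ((Nat.Prime.coprime_iff_not_dvd hp).2 hm)
      · exact Pool.Agent.TH823.MRS.mu_E
  obtain ⟨C, hC⟩ := windows f p0 key.1 key.2 h q hh hq ε hε
  refine ⟨C, fun J => ?_⟩
  obtain ⟨y0, hy0⟩ := hC J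
  refine ⟨y0, fun x hx g hg c => ?_⟩
  have := hy0 x hx g (ok_of_rmul hg) c
  unfold bad
  simp only [cor_eq]
  exact this

end Pool.Agent.Results.MP_0c9a68_nt.BadScalesUniform
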