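import Mathlib
import Pool.Agent.TH668.Gen.O

/-!
# A zero-one law for Elliott's conjecture for families of multiplicative functions with values `1`
and `-1`

`SignMul f`: `f 1 = 1`, `f (m n) = f m f n` for coprime `m, n`, and `f n ∈ {1, -1}` for `n ≥ 1`
(defined in `Pool.Agent.W257.FS.D`).
`mulOf ω` (`Pool.Agent.TH668.Gen.A`): the multiplicative function whose value at every prime
power `p ^ k`, `k ≥ 1`, is `1` if `ω (p ^ k)` is true and `-1` otherwise; `mf ω i = mulOf (ω i)`.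
`NA f A N` (`Pool.Agent.TH668.Gen.N`): `(1 / N) ∑_{n ≤ N} ∏_{(h, i) ∈ A} f_i (n + h)`.
-/

set_option autoImplicit false

namespace Pool.Agent.Results.MP_0c9a68_nt.GenericNaturalAverages

open Finset Filter Pool.Agent.W257.FS Pool.Agent.TH668.Gen

/-- `f` is at infinite distance from all Dirichlet characters -/
def Aper (f : ℕ → ℝ) : Prop :=
  ∀ (q : ℕ) (χ : DirichletCharacter ℂ q), 1 ≤ q → ¬ Summable (fun p : Nat.Primes =>
    (1 - ((f p : ℂ) * star (χ ((p : ℕ) : ZMod q))).re) / ((p : ℕ) : ℝ))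

/-- all products of finitely many of the functions are at infinite distance from all Dirichlet
characters -/
def AperFamily (f : ℕ → ℕ → ℝ) : Prop :=
  ∀ S : Finset ℕ, S.Nonempty → Aper (fun n => ∏ i ∈ S, f i n)

/-- the conclusion of Elliott's conjecture for products of distinct shifts of the `f i` -/
def Elliott (f : ℕ → ℕ → ℝ) : Prop :=
  ∀ A : Finset (ℕ × ℕ), A.Nonempty → Tendsto (NA f A) atTop (nhds 0)

/-- for some product of shifts all numbers between `0` and some `d ≠ 0` are limit points of the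
natural averages -/
def Oscillates (f : ℕ → ℕ → ℝ) : Prop :=
  ∃ A : Finset (ℕ × ℕ), A.Nonempty ∧ ∃ d : ℝ, d ≠ 0 ∧ ∀ c ∈ Set.uIcc 0 d,
    ∃ N : ℕ → ℕ, Tendsto N atTop atTop ∧ Tendsto (fun k => NA f A (N k)) atTop (nhds c)

/-- finitely many values of finitely many of the functions can be kept and finitely many further
ones be prescribed so that the natural averages of the product `A` of shifts are at most `ε`, from
some point on and uniformly over all families of multiplicative functions with these values -/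
def TameNatural : Prop :=
  ∀ (A : Finset (ℕ × ℕ)) (ε : ℝ), A.Nonempty → 0 < ε →
    ∀ (f₀ : ℕ → ℕ → ℝ) (n₀ : ℕ), (∀ i, SignMul (f₀ i)) →
      ∃ f₁ : ℕ → ℕ → ℝ, (∀ i, SignMul (f₁ i)) ∧
        (∀ i < n₀, ∀ n, 1 ≤ n → n < n₀ → f₁ i n = f₀ i n) ∧
        ∃ n₁ N₀ : ℕ, ∀ f : ℕ → ℕ → ℝ, (∀ i, SignMul (f i)) →
          (∀ i < n₁, ∀ n, 1 ≤ n → n < n₁ → f i n = f₁ i n) → ∀ N, N₀ ≤ N → |NA f A N| ≤ ε

/-- a slowly varying sequence with limit point `0` that does not tend to `0` has an interval of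
limit points -/
lemma osc {u : ℕ → ℝ} (hu : Tendsto (fun N => u (N + 1) - u N) atTop (nhds 0)) {N : ℕ → ℕ}
    (hN : Tendsto N atTop atTop) (h0 : Tendsto (fun k => u (N k)) atTop (nhds 0))
    (hn : ¬ Tendsto u atTop (nhds 0)) : ∃ d : ℝ, d ≠ 0 ∧ ∀ c ∈ Set.uIcc 0 d,
    ∃ N : ℕ → ℕ, Tendsto N atTop atTop ∧ Tendsto (fun k => u (N k)) atTop (nhds c) := by
  rw [Metric.tendsto_nhds] at hn
  push Not at hn
  obtain ⟨ε, hε, hfr⟩ := hn
  have hfr' : ∃ᶠ n in atTop, ε ≤ u n ∨ ε ≤ - u n := by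
    refine hfr.mono fun n h => ?_
    rw [Real.dist_eq, sub_zero, le_abs] at h
    exact h
  rcases frequently_or_distrib.1 hfr' with h3 | h3
  · refine ⟨ε, hε.ne', fun c hc => ?_⟩
    rw [Set.uIcc_of_le hε.le] at hc
    rcases eq_or_lt_of_le hc.1 with h | h
    · exact ⟨N, hN, h ▸ h0⟩
    · exact ivt hu (hN.frequently (h0.eventually_lt_const h).frequently)
        (h3.mono fun n h => hc.2.trans h)
  · refine ⟨-ε, (by linarith : -ε < 0).ne, fun c hc => ?_⟩
    rw [Set.uIcc_of_ge (by linarith)] at hc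
    rcases eq_or_lt_of_le hc.2 with h | h
    · exact ⟨N, hN, h.symm ▸ h0⟩
    · have hu' : Tendsto (fun N => - u (N + 1) - - u N) atTop (nhds 0) := by
        have := hu.neg
        rw [neg_zero] at this
        refine this.congr fun n => ?_
        ring
      have h0' := h0.neg
      rw [neg_zero] at h0'
      have hc1 : (0 : ℝ) < -c := by linarith
      have hc2 : -c ≤ ε := by linarith [hc.1]
      obtain ⟨N', hN', h6⟩ := ivt (u := fun n => - u n) hu' (c := -c)
        (hN.frequently (h0'.eventually_lt_const hc1).frequently)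
        (h3.mono fun n h => hc2.trans h)
      refine ⟨N', hN', ?_⟩
      have := h6.neg
      rw [neg_neg] at this
      refine this.congr fun n => ?_
      ring

/-- (1) `mulOf` parametrizes all multiplicative functions; (2) zero-one law; (3) the criterion;
(4) the consequence of the conjecture -/
theorem result :
    ((∀ ω : ℕ → Bool, SignMul (mulOf ω)) ∧
      ∀ f, SignMul f → ∃ ω : ℕ → Bool, ∀ n, 1 ≤ n → mulOf ω n = f n) ∧
    Xor (∀ᶠ ω in residual (ℕ → ℕ → Bool), AperFamily (mf ω) ∧ Elliott (mf ω))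
      (∀ᶠ ω in residual (ℕ → ℕ → Bool), AperFamily (mf ω) ∧ Oscillates (mf ω)) ∧
    (TameNatural ↔ ∀ᶠ ω in residual (ℕ → ℕ → Bool), AperFamily (mf ω) ∧ Elliott (mf ω)) ∧
    ((∀ f : ℕ → ℕ → ℝ, (∀ i, SignMul (f i)) → AperFamily f → Elliott f) → TameNatural) := by
  have hT : TameNatural ↔ ∀ A : Finset (ℕ × ℕ), A.Nonempty → ∀ ε : ℝ, 0 < ε → Small3 A ε := by
    constructor
    · intro h A hA ε hε
      rw [small3_iff]
      exact fun f0 n0 hf0 => h A ε hA hε f0 n0 hf0
    · intro h A ε hA hε f0 n0 hf0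
      exact (small3_iff A ε).1 (h A hA ε hε) f0 n0 hf0
  have hap : ∀ᶠ ω in residual (ℕ → ℕ → Bool), AperFamily (mf ω) := by
    filter_upwards [far_generic2] with ω hω S hS q χ hq
    exact hω S hS q χ hq
  have hA : TameNatural → ∀ᶠ ω in residual (ℕ → ℕ → Bool),
      AperFamily (mf ω) ∧ Elliott (mf ω) := by
    intro h
    filter_upwards [hap, generic_of_small3 (hT.1 h)] with ω h1 h2
    exact ⟨h1, h2⟩
  have hB : ¬ TameNatural → ∀ᶠ ω in residual (ℕ → ℕ → Bool),
      AperFamily (mf ω) ∧ Oscillates (mf ω) := by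
    intro h
    rw [hT] at h
    push Not at h
    obtain ⟨A, hA, ε, hε, hS⟩ := h
    filter_upwards [hap, family_genericN, generic_of_not_small3 hA hε hS] with ω h0 h1 h2
    obtain ⟨N, hN, h3⟩ := h1
    obtain ⟨A', hA', h4⟩ := h2
    obtain ⟨d, hd, h5⟩ := osc (na_slow (mf_or ω) A') hN (h3 A' hA') h4
    exact ⟨h0, A', hA', d, hd, h5⟩
  have hnot : ∀ f : ℕ → ℕ → ℝ, Elliott f → ¬ Oscillates f := by
    rintro f h ⟨A, hA', d, hd, h5⟩
    obtain ⟨N, hN, h6⟩ := h5 d Set.right_mem_uIcc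
    exact hd (tendsto_nhds_unique h6 ((h A hA').comp hN))
  have hAB : (∀ᶠ ω in residual (ℕ → ℕ → Bool), AperFamily (mf ω) ∧ Elliott (mf ω)) →
      ¬ ∀ᶠ ω in residual (ℕ → ℕ → Bool), AperFamily (mf ω) ∧ Oscillates (mf ω) := by
    intro h h'
    obtain ⟨ω, h1, h2⟩ := res_meets2 (h.and h')
    exact hnot _ h1.2 h2.2
  refine ⟨⟨mulOf_signMul, fun f hf => exists_mulOf hf⟩, ?_, ⟨hA, fun h => ?_⟩, fun h => ?_⟩
  · by_cases h : TameNatural
    · exact Or.inl ⟨hA h, hAB (hA h)⟩
    · exact Or.inr ⟨hB h, fun h' => hAB h' (hB h)⟩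
  · by_contra hn
    exact hAB h (hB hn)
  · by_contra hn
    obtain ⟨ω, h1, h2⟩ := res_meets2 (hB hn)
    exact hnot _ (h (mf ω) (fun i => mulOf_signMul (ω i)) h1) h2

end Pool.Agent.Results.MP_0c9a68_nt.GenericNaturalAverages
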