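import Pool.Agent.TH823.EL.PolyU
import Pool.Agent.TH823.EL.Near

/-!
# Elliott's conjecture for all but a power-saving proportion of the shifts: functions close to a constant on the primes

From the starting files: the zero-free region and the local formula for the logarithmic derivative
(`Pool.Agent.W66`), the large sieve (`Pool.Agent.Helper112`), bilinear exponential sums and the moments of Weyl
sums (`Pool.Agent.H373R2`), Dirichlet's approximation (`Pool.Agent.W93`), the Turan–Kubilius inequality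
(`Pool.Agent.Helper480`), Mertens' theorem.
From Mathlib: `DirichletCharacter ℂ q`: the Dirichlet characters of modulus `q`; `Finset.Icc 1 X`: the integers `n`
with `1 ≤ n ≤ X`; `Fintype.piFinset S`: the tuples `m` with `m i ∈ S i` for all `i`; `Polynomial ℤ`: the polynomials
with integer coefficients; `f.eval m`: the value at `m`.
-/

set_option autoImplicit false

namespace Pool.Agent.Results.MP_0c9a68_nt.PowerSavingNearConstant

open Finset

/-- The function `f` on the positive integers as a function on the integers, `0` at the integers `m ≤ 0`. -/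
noncomputable def ext (f : ℕ → ℂ) (m : ℤ) : ℂ := if 1 ≤ m then f m.toNat else 0

/-- The primes `p` with `y < p ≤ z`. -/
def primes (y z : ℕ) : Finset ℕ := (Ioc y z).filter Nat.Prime

/-- The integer part of `N ^ (1 / (2 D))`. -/
noncomputable def root (D N : ℕ) : ℕ := ⌊(N : ℝ) ^ (1 / (2 * D : ℝ))⌋₊

/-- At the scale `N`, with `Q = root D N`: `f (p n) = f p * f n` for all the primes `p` with `Q ^ 6 < p ≤ Q ^ D` and
all the `n` not divisible by `p` (for example `f` multiplicative), and `f p` is within `θ` of `w₀` on average over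
the primes `p` with `Q ^ 6 < p ≤ Q ^ (6 E)`, with the weights `1 / p`. -/
def Near (w₀ : ℂ) (θ : ℝ) (E D N : ℕ) (f : ℕ → ℂ) : Prop :=
  (∀ p n : ℕ, p.Prime → root D N ^ 6 < p → p ≤ root D N ^ D → ¬ p ∣ n → f (p * n) = f p * f n) ∧
    ∑ p ∈ primes (root D N ^ 6) (root D N ^ (6 * E)), ‖f p - w₀‖ / p ≤
      θ * ∑ p ∈ primes (root D N ^ 6) (root D N ^ (6 * E)), 1 / (p : ℝ)

/-- The scale `N` is not exceptional, with `Q = root D N`: no real nonprincipal character of modulus `q ≤ Q` has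
`∑ χ(p) / p < - (3 / 5) ∑ 1 / p` over the primes `p` with `Q ^ 6 < p ≤ Q ^ (6 E)`. -/
def NonExceptional (E D N : ℕ) : Prop :=
  ∀ q : ℕ, 1 ≤ q → q ≤ root D N → ∀ χ : DirichletCharacter ℂ q, χ ≠ 1 → χ ^ 2 = 1 →
    -(3 / 5) * ∑ p ∈ primes (root D N ^ 6) (root D N ^ (6 * E)), 1 / (p : ℝ) ≤
      ∑ p ∈ primes (root D N ^ 6) (root D N ^ (6 * E)), (χ (p : ZMod q)).re / p

open Classical in
/-- The number of the elements of the finite set `S` with the property `F`. -/
noncomputable def num {α : Type} (S : Finset α) (F : α → Prop) : ℝ := ((S.filter F).card : ℝ)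

/-- For all `a i ≤ A` and all `x i` with `N ^ (1 - δ) ≤ (x i) ^ (deg P i) ≤ A N`: all the tuples `m` with
`1 ≤ m i ≤ x i` with at most `x 1 ⋯ x r / N ^ δ` exceptions satisfy
`|∑ n ≤ X, ∏ i, g i (a i * n + P i (m i))| ≤ ε N` for all `X ≤ N`. -/
def Tuples (A : ℕ) {r : ℕ} (P : Fin r → Polynomial ℤ) (ε δ : ℝ) (N : ℕ) (g : Fin r → ℕ → ℂ) : Prop :=
  ∀ a : Fin r → ℕ, (∀ i, 1 ≤ a i ∧ a i ≤ A) →
  ∀ x : Fin r → ℕ, (∀ i, (x i) ^ (P i).natDegree ≤ A * N ∧ (N : ℝ) ^ (1 - δ) ≤ (x i : ℝ) ^ (P i).natDegree) →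
    num (Fintype.piFinset fun i => Icc 1 (x i)) (fun m => ¬ ∀ X : ℕ, X ≤ N →
      ‖∑ n ∈ Icc 1 X, ∏ i, ext (g i) (a i * n + (P i).eval (m i : ℤ))‖ ≤ ε * N) ≤
        (∏ i, (x i : ℝ)) * (N : ℝ) ^ (-δ)

lemma tuples_of {A k : ℕ} {P : Fin (k + 1) → Polynomial ℤ} {ε δ : ℝ} {N : ℕ} {g : Fin (k + 1) → ℕ → ℂ}
    (hg : ∀ i n, ‖g i n‖ ≤ 1) (j : Fin (k + 1))
    (h : Pool.Agent.TH823.PS.PolyG (g j) A 1 (P j) ε δ N) : Tuples A P ε δ N g := by
  classical
  intro a ha x hx
  have e : ∀ (S : Finset (Fin (k + 1) → ℕ)) (F : (Fin (k + 1) → ℕ) → Prop) [DecidablePred F],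
      num S F = ((S.filter F).card : ℝ) := by
    intro S F _
    unfold num
    congr!
  rw [e]
  refine Pool.Agent.TH823.PS.tuples_poly h x (hx j) (ha j).1 (ha j).2
    (fun b n => ∏ i : Fin k, ext (g (j.succAbove i)) (a (j.succAbove i) * n + (P (j.succAbove i)).eval (b i : ℤ)))
    ?_ _ ?_
  · intro b n
    rw [norm_prod]
    apply prod_le_one (fun _ _ => norm_nonneg _)
    intro i _
    unfold ext
    split_ifs
    · exact hg _ _
    · rw [norm_zero]; exact zero_le_one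
  · intro m hm
    push Not at hm
    obtain ⟨X, hX, h1⟩ := hm
    refine ⟨X, hX, lt_of_lt_of_eq h1 ?_⟩
    congr 1
    apply sum_congr rfl
    intro n _
    rw [Fin.prod_univ_succAbove _ j, mul_comm]
    rfl

lemma root_pow {D Q : ℕ} (hD : 1 ≤ D) : root D (Q ^ (2 * D)) = Q := by
  unfold root
  have hD0 : (0 : ℝ) < D := by exact_mod_cast hD
  have h1 : (((Q ^ (2 * D) : ℕ) : ℝ)) ^ (1 / (2 * D : ℝ)) = Q := by
    push_cast
    rw [← Real.rpow_natCast, ← Real.rpow_mul (Nat.cast_nonneg Q)]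
    push_cast
    rw [mul_one_div_cancel (by positivity), Real.rpow_one]
  rw [h1, Nat.floor_natCast]

/-- Let `w₀ ≠ 1` be a complex number with `|w₀| ≤ 1`, let `P 1, ..., P r` be nonconstant integer polynomials, let `A`
be an integer and `ε > 0`. There are `E ≥ 1`, `D ≥ 6 E + 2`, `θ > 0` and `δ > 0` such that, for all large `N`, with
the additional assumption that the scale `N` is not exceptional if `w₀ = -1`: if `g 1, ..., g r` are arbitrary
functions bounded by `1`, one of which is multiplicative (with respect to the primes between `N ^ (3 / D)` and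
`N ^ (1 / 2)`) and within `θ` of `w₀` on average on the primes between `N ^ (3 / D)` and `N ^ (3 E / D)`, then
`|∑ n ≤ X, ∏ i, g i (a i * n + P i (m i))| ≤ ε N` for all `X ≤ N`, for all the tuples `m` with `m i ≤ x i` but
`x 1 ⋯ x r / N ^ δ`, for all `a i ≤ A` and all `x i` with `N ^ (1 - δ) ≤ (x i) ^ (deg P i) ≤ A N`.
There are arbitrarily large scales that are not exceptional. -/
theorem result (w₀ : ℂ) (hw₀ : ‖w₀‖ ≤ 1) (hw₁ : w₀ ≠ 1) (A r : ℕ) (P : Fin r → Polynomial ℤ)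
    (hP : ∀ i, 1 ≤ (P i).natDegree) (ε : ℝ) (hε : 0 < ε) :
    ∃ E D : ℕ, 1 ≤ E ∧ 6 * E + 2 ≤ D ∧ ∃ θ δ : ℝ, 0 < θ ∧ 0 < δ ∧
      (∃ N₀ : ℕ, ∀ N : ℕ, N₀ ≤ N → (w₀ = -1 → NonExceptional E D N) →
        ∀ g : Fin r → ℕ → ℂ, (∀ i n, ‖g i n‖ ≤ 1) → (∃ j, Near w₀ θ E D N (g j)) → Tuples A P ε δ N g) ∧
      ∀ N₁ : ℕ, ∃ N : ℕ, N₁ ≤ N ∧ NonExceptional E D N := by
  classical
  -- the constant `c` and the sufficient condition for the hypothesis on the primes
  obtain ⟨c, hc, hc1, θ, hθ, E00, hnp⟩ : ∃ c : ℝ, 0 < c ∧ c ≤ 1 ∧ ∃ θ : ℝ, 0 < θ ∧ ∃ E00 : ℕ, ∀ E : ℕ, E00 ≤ E →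
      ∀ Q : ℕ, 14 ≤ Q → (w₀ = -1 → Pool.Agent.TH823.PS.NE 6 E Q) → ∀ w : ℕ → ℂ,
      ∑ p ∈ primes (Q ^ 6) (Q ^ (6 * E)), ‖w p - w₀‖ / p ≤ θ * ∑ p ∈ primes (Q ^ 6) (Q ^ (6 * E)), 1 / (p : ℝ) →
      Pool.Agent.TH823.EL.NPW c Q (Q ^ 6) (Q ^ (6 * E)) w := by
    by_cases hneg : w₀ = -1
    · obtain ⟨E0, h⟩ := Pool.Agent.TH823.EL.npw_neg
      refine ⟨1 / 40, by norm_num, by norm_num, 1 / 40, by norm_num, E0, fun E hE Q hQ hNE w hw => ?_⟩
      refine h E hE Q hQ (hNE hneg) w ?_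
      simp only [hneg, sub_neg_eq_add] at hw
      exact hw
    · obtain ⟨c, hc, hc1, hcw⟩ : ∃ c : ℝ, 0 < c ∧ c ≤ 1 / 338 ∧
          ((‖w₀‖ = 1 ∧ |w₀.re| ≤ 1 - c) ∨ ‖w₀‖ ≤ 1 - c) := by
        rcases eq_or_lt_of_le hw₀ with h1 | h1
        · have h2 : |w₀.re| < 1 := by
            have h3 := Complex.abs_re_le_norm w₀
            rw [h1] at h3
            refine lt_of_le_of_ne h3 fun h4 => ?_
            have h5 : w₀.re ^ 2 + w₀.im ^ 2 = 1 := by
              have := Complex.normSq_eq_norm_sq w₀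
              rw [Complex.normSq_apply, h1] at this
              nlinarith
            have h6 : w₀.re ^ 2 = 1 := by rw [← sq_abs, h4, one_pow]
            have h7 : w₀.im = 0 := by
              have : w₀.im ^ 2 = 0 := by linarith
              exact pow_eq_zero_iff two_ne_zero |>.1 this
            have h8 : (w₀.re - 1) * (w₀.re + 1) = 0 := by linarith [sq w₀.re]
            rcases mul_eq_zero.1 h8 with h9 | h9
            · exact hw₁ (Complex.ext (by simpa using sub_eq_zero.1 h9) (by simpa using h7))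
            · exact hneg (Complex.ext (by simpa using eq_neg_of_add_eq_zero_left h9) (by simpa using h7))
          refine ⟨min (1 / 338) (1 - |w₀.re|), lt_min (by norm_num) (by linarith), min_le_left _ _,
            Or.inl ⟨h1, ?_⟩⟩
          have := min_le_right (1 / 338 : ℝ) (1 - |w₀.re|)
          linarith
        · refine ⟨min (1 / 338) (1 - ‖w₀‖), lt_min (by norm_num) (by linarith), min_le_left _ _, Or.inr ?_⟩
          have := min_le_right (1 / 338 : ℝ) (1 - ‖w₀‖)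
          linarith
      obtain ⟨E0, h⟩ := Pool.Agent.TH823.EL.npw_near c hc hc1
      exact ⟨c / 4, by positivity, by linarith, c / 4, by positivity, E0, fun E hE Q hQ _ w hw =>
        h E hE Q hQ w₀ hcw w hw⟩
  obtain ⟨E01, hgs⟩ := Pool.Agent.TH823.PS.good_scales
  obtain ⟨τ, hτ, E, D, hE, hD, δ, hδ, Q0, hQ03, hQ0⟩ := Pool.Agent.TH823.EL.all_scales_E (E00 + E01) c
    hc hc1 A 1 1 P hP hε
  obtain ⟨N₀, hN₀⟩ := Pool.Agent.TH823.EL.scale_root D (by omega) (Q0 + 14)
  refine ⟨E, D, by omega, hD, θ, δ, hθ, hδ, ⟨N₀, fun N hN hex g hg hj => ?_⟩, fun N₁ => ?_⟩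
  · obtain ⟨j, hmul, hnear⟩ := hj
    rcases r with _ | k
    · exact j.elim0
    · obtain ⟨h1, h2, h3⟩ := hN₀ N hN
      have hQ : ⌊(N : ℝ) ^ (1 / (2 * D : ℝ))⌋₊ = root D N := rfl
      rw [hQ] at h1 h2 h3
      have hNE : w₀ = -1 → Pool.Agent.TH823.PS.NE 6 E (root D N) := by
        intro h4 q _ hq χ hχ1 hχ2
        have h5 := hex h4 q (Nat.pos_of_ne_zero (NeZero.ne q)) hq χ hχ1 hχ2
        refine le_trans h5 (le_of_eq ?_)
        apply sum_congr rfl
        intro p _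
        rw [Pool.Agent.TH823.PS.rt_zero]
      have hwin : Pool.Agent.TH823.EL.Win (root D N ^ 6) (root D N ^ D) 0 (g j) (g j) :=
        ⟨hg j, hg j, fun p n hp h4 h5 h6 => by rw [hmul p n hp h4 h5 h6, sub_self, norm_zero]⟩
      have h4 := hQ0 (root D N) (by omega) (g j) (g j) 0 le_rfl hτ.le hwin
        (hnp E (by omega) (root D N) (by omega) hNE (g j) hnear) N h2 h3
      exact tuples_of hg j (h4.2 j)
  · obtain ⟨Q, hQ, hNE⟩ := hgs E (by omega) 6 (by norm_num) (N₁ + 1)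
    refine ⟨Q ^ (2 * D), ?_, ?_⟩
    · have : Q ≤ Q ^ (2 * D) := Nat.le_self_pow (by omega) Q
      omega
    · intro q hq1 hq χ hχ1 hχ2
      rw [root_pow (by omega)] at hq ⊢
      have : NeZero q := ⟨by omega⟩
      refine le_trans (hNE q hq χ hχ1 hχ2) (le_of_eq ?_)
      apply sum_congr rfl
      intro p _
      rw [Pool.Agent.TH823.PS.rt_zero]

end Pool.Agent.Results.MP_0c9a68_nt.PowerSavingNearConstant
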