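import Pool.Agent.TH573.UE.MainB

/-!
# Elliott's conjecture with an adversarial factor, for almost every modification of the Liouville
function on one extremely sparse set of primes

There is a set `Q` of primes, so sparse that the sum of the reciprocals of its members up to `y` is
`O((log* y)^2)` (`log*` is the iterated logarithm), with the following property. Let `g` be any
completely multiplicative function with values `1` and `-1`, for instance the Liouville function,
let `w 0, w 1, …` be bounded weights (for instance all products of shifts of the members of a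
countable family of fixed multiplicative functions), and choose the signs at the primes of `Q` at
random. Almost surely the resulting completely multiplicative function `f`, which agrees with `g` at
all primes outside `Q`, satisfies

  `∑_{n ≤ N} w s n * F (T^n x) * h (n + b) * f |P n| = o(N)`

for every integer `b`, every polynomial `P` that is not of the form `c (X + b)^j G ^ 2`, every `s`,
every system `(X, T)` of topological entropy zero and every continuous `F`, UNIFORMLY over all
points `x` of the system and all functions `h` in a class that contains all 1-bounded multiplicative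
functions (which may be chosen after `f`, and may depend on `N`) and all 1-bounded functions of
`Ω`. The excluded polynomials are those where `h = f ^ j` is a counterexample.

Method: the criterion of Katai (`Pool.Agent.W699.TLKat`, starting files) asks for the correlations
of the dilates by two primes `p ≠ q`, that is of `f |P (p n) P (q n)|` with weights
`w (p n) w (q n) F (T^{pn} x) conj F (T^{qn} x)`, uniformly in `x`. The polynomial `P (p X) P (q X)`
has a root of odd multiplicity other than `0`, and then so does every product of shifts of it. The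
almost sure correlations of all these products with all the weights which are indicators of level
sets of `w (p n) w (q n)` on windows (`Pool.Agent.TH573.SM.main`) show that in almost all windows
the sequence `f |P (p n) P (q n)|` is nearly orthogonal to the few words of the system of zero
entropy (the Hoeffding-type bound and the entropy bound are `Pool.Agent.TH907.Sar` of helper907).
-/

set_option autoImplicit false

namespace Pool.Agent.Results.MP_0c9a68_nt.UniformTwoPoint

open Finset Filter MeasureTheory Pool.Agent.H220M
open Pool.Agent.TH573.SM (tower)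
open scoped Polynomial

open Classical in
theorem result : ∃ Q : Set ℕ, (∀ q ∈ Q, q.Prime) ∧
    (∃ K : ℝ, ∀ n : ℕ, ∑ q ∈ (Icc 1 (tower n)).filter (fun q => q ∈ Q), (1 : ℝ) / q ≤ K * n ^ 2) ∧
    ∀ g : ℕ →*₀ ℤ, (∀ p : ℕ, p.Prime → g p = 1 ∨ g p = -1) →
    ∀ w : ℕ → ℕ → ℝ, (∀ s n, |w s n| ≤ 1) →
    ∀ᵐ ω ∂coins, ∃! f : ℕ →*₀ ℤ, IsModif g Q ω f ∧
      ∀ (b : ℤ) (P : ℤ[X]),
        (¬ ∃ (c : ℤ) (j : ℕ) (G : ℤ[X]),
          P = Polynomial.C c * (Polynomial.X + Polynomial.C b) ^ j * G ^ 2) →
        ∀ (s : ℕ) (X : Type) [MetricSpace X] [CompactSpace X] (T : X → X),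
          Dynamics.coverEntropy T Set.univ ≤ 0 → ∀ F : X → ℂ, Continuous F →
          ∀ ε : ℝ, 0 < ε → ∃ N₀ : ℕ, ∀ N : ℕ, N₀ ≤ N → ∀ (x : X) (h : ℕ → ℂ),
            (∀ n, ‖h n‖ ≤ 1) →
            (∃ c h' : ℕ → ℂ, (∀ n, ‖c n‖ ≤ 1) ∧ (∀ n, ‖h' n‖ ≤ 1) ∧
              ∀ p n : ℕ, p.Prime → ¬ p ∣ n → h (p * n) = c p * h' n) →
            ‖∑ n ∈ Icc 1 N, (w s n : ℂ) * F (T^[n] x) * h ((n : ℤ) + b).toNat *
              (((f (P.eval (n : ℤ)).natAbs : ℤ) : ℝ) : ℂ)‖ ≤ ε * N := by
  refine ⟨Pool.Agent.TH573.SM.sparse, fun q hq => hq.1, ?_, fun g hg w hw => ?_⟩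
  · obtain ⟨K, hK⟩ := Pool.Agent.TH573.SM.sparse_sum
    refine ⟨K, fun n => ?_⟩
    refine le_trans (Finset.sum_le_sum_of_subset_of_nonneg ?_ fun q _ _ => by positivity) (hK n)
    intro q hq
    rw [mem_filter, mem_Icc] at hq ⊢
    obtain ⟨h1, hp, i, h2, h3⟩ := hq
    refine ⟨h1, i, ?_, hp, h2, h3⟩
    by_contra h
    have := Pool.Agent.TH573.SM.tower_strictMono.monotone (not_lt.1 h)
    omega
  · filter_upwards [Pool.Agent.TH573.UE.mainZ g hg w hw] with ω hω
    obtain ⟨f, ⟨hf, h1⟩, hu⟩ := hω
    refine ⟨f, ⟨hf, ?_⟩, fun f' hf' => isModif_unique g _ ω f' f hf'.1 hf⟩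
    intro b P hP s X _ _ T hE F hF ε hε
    obtain ⟨N₀, hN₀⟩ := h1 b P hP s X T hE F hF ε hε
    exact ⟨N₀, fun N hN x h ha hb => hN₀ N hN x h ⟨ha, hb⟩⟩

end Pool.Agent.Results.MP_0c9a68_nt.UniformTwoPoint
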